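import Pool.Agent.H70.Bid

namespace Pool.Agent.Results.MP_e4445d_al.Weight

open TopologicalSpace Cardinal

universe u

theorem result :
    (∀ (G : Type u) [NormedAddCommGroup G] (θ : G →+ UnitAddCircle),
      Continuous θ ↔ ∃ χ : NormedAddGroupHom G UnitAddCircle, χ.toAddMonoidHom = θ) ∧
    ∀ (G : Type u) [NormedAddCommGroup G],
      (∀ B : Set (Set (NormedAddGroupHom (NormedAddGroupHom G UnitAddCircle) UnitAddCircle)),
        IsTopologicalBasis B →
        ∃ B' : Set (Set (NormedAddGroupHom G UnitAddCircle)), IsTopologicalBasis B' ∧ #B' ≤ #B) ∧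
      ∀ D : Set (NormedAddGroupHom (NormedAddGroupHom G UnitAddCircle) UnitAddCircle), Dense D →
        ∃ E : Set (NormedAddGroupHom G UnitAddCircle), Dense E ∧ #E ≤ #D :=
  ⟨fun _ _ θ => ⟨fun h => ⟨⟨θ, θ.map_add, Pool.Agent.H70.Bid.bdd θ h⟩, rfl⟩,
    fun ⟨χ, h⟩ => h ▸ χ.continuous⟩,
    fun _ _ => ⟨fun _ => Pool.Agent.H70.Bid.base, fun _ => Pool.Agent.H70.Bid.dens⟩⟩

end Pool.Agent.Results.MP_e4445d_al.Weight
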